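import Pool.Agent.helper32.EXA.Spec

/-!
# Project EXC, row IOI: the embedding of the matrices of trace zero is injective
-/

set_option autoImplicit false

open Finset

namespace Pool.Agent.EXA

open Pool.Agent.EXC

section aux
variable {n : ℕ} (C : Matrix (Fin n) (Fin n) ℤ) {F : Type} [Field F]

theorem IOI_cf_sum {ι : Type} (s : Finset ι) (f : ι → Lm C F) (w : Fin n → ℤ) : cf (∑ i ∈ s, f i) w = ∑ i ∈ s, cf (f i) w := by
  classical
  induction s using Finset.induction_on with
  | empty => simp
  | insert a s ha ih => rw [Finset.sum_insert ha, Finset.sum_insert ha, cf_add, ih]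

theorem IOI_cf_ite (p : Prop) [Decidable p] (x : Lm C F) (w : Fin n → ℤ) : cf (if p then 0 else x) w = if p then 0 else cf x w := by
  split_ifs <;> simp

theorem IOI_et (a b : Fin 4) : (et a b : F) ≠ 0 := by
  unfold et
  split_ifs <;> simp


end aux

theorem IOI (hRHO : RHO_stmt) : IOI_stmt := by
  intro n C _ F _ j0 θ δ hE
  obtain ⟨r1, -, -, -, r5⟩ := hRHO n C j0 θ δ hE
  have h2 : ∀ a b : Fin 4, a ≠ b → ip C (ro δ a b) (ro δ a b) = 2 := by
    intro a b hab
    rw [r1]
    simp [hab, hab.symm]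
  -- the coefficients
  have hcf : ∀ (M : Matrix (Fin 4) (Fin 4) F) (a b : Fin 4), a ≠ b → cf (io C δ M) (ro δ a b) = (et a b : F) * M a b := by
    intro M a b hab
    unfold io
    rw [cf_add, IOI_cf_sum, IOI_cf_sum]
    have e1 : ∑ i : Fin 3, cf ((∑ a : Fin 4, if (a : ℕ) ≤ i then M a a else 0) • ht C (sr (δ i)) : Lm C F) (ro δ a b) = 0 := by
      refine Finset.sum_eq_zero fun i _ => ?_
      rw [cf_smul, cf_ht, mul_zero]
    rw [e1, zero_add]
    have e2 : ∀ c d : Fin 4, cf (if c = d then 0 else ((et c d : F) * M c d) • E C (ro δ c d) : Lm C F) (ro δ a b) =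
        if c = a ∧ d = b then (et a b : F) * M a b else 0 := by
      intro c d
      rw [IOI_cf_ite, cf_smul]
      by_cases hcd : c = d
      · rw [if_pos hcd, if_neg]
        rintro ⟨h1, h3⟩
        exact hab (by rw [← h1, ← h3, hcd])
      · rw [if_neg hcd, cf_E C (h2 c d hcd)]
        by_cases h3 : c = a ∧ d = b
        · rw [if_pos h3, h3.1, h3.2, if_pos rfl, mul_one]
        · rw [if_neg h3, if_neg, mul_zero]
          intro h4
          have h5 := r5 a b c d hab hcd h4
          exact h3 ⟨h5.1.symm, h5.2.symm⟩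
    simp only [IOI_cf_sum, e2]
    rw [Finset.sum_eq_single a]
    · rw [Finset.sum_eq_single b]
      · simp
      · intro d _ hd
        rw [if_neg (fun h => hd h.2)]
      · simp
    · intro c _ hc
      exact Finset.sum_eq_zero fun d _ => if_neg (fun h => hc h.1)
    · simp
  have hfst : ∀ (M : Matrix (Fin 4) (Fin 4) F) (k : Fin 3), (io C δ M).1 (δ k) = ∑ a : Fin 4, if (a : ℕ) ≤ k then M a a else 0 := by
    intro M k
    unfold io
    have e3 : ∀ c d : Fin 4, (if c = d then 0 else ((et c d : F) * M c d) • E C (ro δ c d) : Lm C F).1 = 0 := by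
      intro c d
      split_ifs
      · rfl
      · rw [Prod.smul_fst, E_fst, smul_zero]
    rw [Prod.fst_add, Prod.fst_sum, Prod.fst_sum]
    simp only [Prod.fst_sum, e3, Finset.sum_const_zero, add_zero, Prod.smul_fst, ht_fst]
    rw [Finset.sum_apply]
    simp only [Pi.smul_apply, smul_eq_mul]
    rw [Finset.sum_eq_single k]
    · simp [sr]
    · intro j _ hj
      have : δ k ≠ δ j := fun h => hj (hE.inc.injective h).symm
      simp [sr, this]
    · simp
  have hinj : ∀ M : Matrix (Fin 4) (Fin 4) F, M.trace = 0 → io C δ M = 0 → M = 0 := by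
    intro M htr hM
    have hoff : ∀ a b : Fin 4, a ≠ b → M a b = 0 := by
      intro a b hab
      have h3 := hcf M a b hab
      rw [hM, cf_zero] at h3
      exact (mul_eq_zero.1 h3.symm).resolve_left (IOI_et a b)
    have hd : ∀ k : Fin 3, ∑ a : Fin 4, (if (a : ℕ) ≤ k then M a a else 0) = 0 := by
      intro k
      rw [← hfst, hM]
      rfl
    have d0 := hd 0
    have d1 := hd 1
    have d2 := hd 2
    have d3 : ∑ a : Fin 4, M a a = 0 := htr
    simp [Fin.sum_univ_four] at d0 d1 d2 d3
    have a0 : M 0 0 = 0 := by simpa using d0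
    have a1 : M 1 1 = 0 := by simpa [a0] using d1
    have a2 : M 2 2 = 0 := by simpa [a0, a1] using d2
    have a3 : M 3 3 = 0 := by simpa [a0, a1, a2] using d3
    ext a b
    by_cases hab : a = b
    · subst hab
      fin_cases a <;> simp [a0, a1, a2, a3]
    · exact hoff a b hab
  refine ⟨hinj, fun m hm => ?_⟩
  have hcomm : ∀ M : Matrix (Fin 4) (Fin 4) F, M.trace = 0 → (m : Matrix (Fin 4) (Fin 4) F) * M = M * m := by
    intro M hM
    have h3 := hm M hM
    have hmi : ((m⁻¹ : Matrix.SpecialLinearGroup (Fin 4) F) : Matrix (Fin 4) (Fin 4) F) * (m : Matrix (Fin 4) (Fin 4) F) = 1 := by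
      rw [← Matrix.SpecialLinearGroup.coe_mul, inv_mul_cancel, Matrix.SpecialLinearGroup.coe_one]
    set M' := (m : Matrix (Fin 4) (Fin 4) F) * M * ((m⁻¹ : Matrix.SpecialLinearGroup (Fin 4) F) : Matrix (Fin 4) (Fin 4) F) with hM'
    have htr' : M'.trace = 0 := by
      rw [hM', Matrix.trace_mul_cycle, hmi, Matrix.one_mul, hM]
    have h4 : io C δ (M' + (-1 : F) • M) = 0 := by
      rw [io_add, io_smul, ← h3]
      simp
    have h5 := hinj _ (by rw [Matrix.trace_add, Matrix.trace_smul, htr', hM]; simp) h4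
    have h6 : M' = M := by
      have := eq_neg_of_add_eq_zero_left h5
      rw [this]
      simp
    calc (m : Matrix (Fin 4) (Fin 4) F) * M = (m : Matrix (Fin 4) (Fin 4) F) * M * (((m⁻¹ : Matrix.SpecialLinearGroup (Fin 4) F) : Matrix (Fin 4) (Fin 4) F) * (m : Matrix (Fin 4) (Fin 4) F)) := by
          rw [hmi, Matrix.mul_one]
      _ = M' * m := by rw [hM', Matrix.mul_assoc ((m : Matrix (Fin 4) (Fin 4) F) * M)]
      _ = M * m := by rw [h6]
  have hs : (m : Matrix (Fin 4) (Fin 4) F) ∈ Set.range (Matrix.scalar (Fin 4)) := by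
    apply Matrix.mem_range_scalar_of_commute_single
    intro a b hab
    have h3 := hcomm (Matrix.single a b 1) (by
      rw [Matrix.trace]
      refine Finset.sum_eq_zero fun i _ => ?_
      rw [Matrix.diag_apply, Matrix.single_apply]
      rw [if_neg]
      rintro ⟨h4, h5⟩
      exact hab (h4.trans h5.symm))
    exact h3.symm
  obtain ⟨c, hc⟩ := hs
  refine ⟨c, ?_⟩
  rw [← hc]
  ext i j
  simp [Matrix.scalar_apply, Matrix.diagonal_apply, Matrix.one_apply]

end Pool.Agent.EXA
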