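import Pool.Agent.helper32.EXA.Spec

set_option autoImplicit false

open Finset

namespace Pool.Agent.EXA

open Pool.Agent.EXC

theorem LIF (hRMB : RMB_stmt) (hSLT : SLT_stmt) (hRHO : RHO_stmt) (hEXF : EXF_stmt) : LIF_stmt := by
  intro n C _ F _ j0 θ δ hE m
  obtain ⟨r1, r2, r3, r4⟩ := hRMB n C F j0 θ δ hE
  have hn := hE.hb
  obtain ⟨-, e2, e3⟩ := hEXF n C F hn
  have hm : m ∈ Subgroup.closure {m : Matrix.SpecialLinearGroup (Fin 4) F | ∃ (a b : Fin 4) (t : F), a ≠ b ∧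
      (m : Matrix (Fin 4) (Fin 4) F) = 1 + Matrix.single a b t} := by
    rw [hSLT F]
    trivial
  induction hm using Subgroup.closure_induction with
  | mem x hx =>
    obtain ⟨a, b, t, hab, hx⟩ := hx
    have hr : ip C (ro δ a b) (ro δ a b) = 2 := by
      rw [(hRHO n C j0 θ δ hE).1 a b a b, if_pos rfl, if_pos rfl, if_neg hab, if_neg (Ne.symm hab)]
      norm_num
    obtain ⟨h, hh, hX⟩ := (e3.1 _ (e2 _ hr)).2.2.2.2.1 ((et a b : F) * t)
    exact ⟨h, hh, r1 a b t h x hab hX hx⟩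
  | one => exact ⟨1, one_mem _, r4⟩
  | mul x y _ _ hx hy =>
    obtain ⟨g, hg, h1⟩ := hx
    obtain ⟨h, hh, h2⟩ := hy
    exact ⟨g * h, mul_mem hg hh, r2 g h x y h1 h2⟩
  | inv x _ hx =>
    obtain ⟨g, hg, h1⟩ := hx
    exact ⟨g⁻¹, inv_mem hg, r3 g x h1⟩

end Pool.Agent.EXA
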