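import Pool.Agent.helper32.EXA.Spec

set_option autoImplicit false

open Finset

namespace Pool.Agent.EXA

open Pool.Agent.EXC

theorem SLT_w {F : Type} [Field F] {i j : Fin 4} (hij : i ≠ j) (a b : F) (hab : a * b = 1) :
    ((1 + Matrix.single i j a) * (1 + Matrix.single j i (-b)) * (1 + Matrix.single i j a) : Matrix (Fin 4) (Fin 4) F) =
      1 - Matrix.single i i 1 - Matrix.single j j 1 + Matrix.single i j a - Matrix.single j i b := by
  have hba : b * a = 1 := by rw [mul_comm]; exact hab
  have e1 : (Matrix.single i j a * Matrix.single j i (-b) : Matrix (Fin 4) (Fin 4) F) = -Matrix.single i i 1 := by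
    rw [Matrix.single_mul_single_same, mul_neg, hab, Matrix.single_neg]
  have e2 : (Matrix.single j i (-b) * Matrix.single i j a : Matrix (Fin 4) (Fin 4) F) = -Matrix.single j j 1 := by
    rw [Matrix.single_mul_single_same, neg_mul, hba, Matrix.single_neg]
  have e3 : (Matrix.single i j a * Matrix.single i j a : Matrix (Fin 4) (Fin 4) F) = 0 :=
    Matrix.single_mul_single_of_ne _ _ _ _ (Ne.symm hij) _
  have e4 : (Matrix.single i i 1 * Matrix.single i j a : Matrix (Fin 4) (Fin 4) F) = Matrix.single i j a := by
    rw [Matrix.single_mul_single_same, one_mul]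
  have e5 : (Matrix.single j i (-b) : Matrix (Fin 4) (Fin 4) F) = -Matrix.single j i b := by rw [Matrix.single_neg]
  calc ((1 + Matrix.single i j a) * (1 + Matrix.single j i (-b)) * (1 + Matrix.single i j a) : Matrix (Fin 4) (Fin 4) F)
      = 1 + Matrix.single i j a + Matrix.single j i (-b) + Matrix.single i j a * Matrix.single j i (-b) +
        (Matrix.single i j a + Matrix.single i j a * Matrix.single i j a + Matrix.single j i (-b) * Matrix.single i j a +
        Matrix.single i j a * Matrix.single j i (-b) * Matrix.single i j a) := by noncomm_ring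
    _ = _ := by
        rw [e1, e2, e3, neg_mul, e4, e5]
        abel

theorem SLT_d {F : Type} [Field F] {i j : Fin 4} (hij : i ≠ j) (a : F) (ha : a ≠ 0) :
    Matrix.SpecialLinearGroup.diag2n hij a ha =
      Matrix.SpecialLinearGroup.transvection hij a * Matrix.SpecialLinearGroup.transvection hij.symm (-a⁻¹) *
      Matrix.SpecialLinearGroup.transvection hij a * (Matrix.SpecialLinearGroup.transvection hij (-1) *
      Matrix.SpecialLinearGroup.transvection hij.symm 1 * Matrix.SpecialLinearGroup.transvection hij (-1)) := by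
  apply Subtype.ext
  have h1 := SLT_w hij a a⁻¹ (mul_inv_cancel₀ ha)
  have h2 := SLT_w hij (-1 : F) (-1) (by norm_num)
  rw [neg_neg] at h2
  have h3 : ((1 - Matrix.single i i 1 - Matrix.single j j 1 + Matrix.single i j a - Matrix.single j i a⁻¹) *
      (1 - Matrix.single i i 1 - Matrix.single j j 1 + Matrix.single i j (-1) - Matrix.single j i (-1)) : Matrix (Fin 4) (Fin 4) F) =
      Matrix.diagonal (fun k => if k = i then a else if k = j then a⁻¹ else 1) := by
    have f1 : (Matrix.single i j a * Matrix.single j i 1 : Matrix (Fin 4) (Fin 4) F) = Matrix.single i i a := by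
      rw [Matrix.single_mul_single_same, mul_one]
    have f2 : (Matrix.single j i a⁻¹ * Matrix.single i j 1 : Matrix (Fin 4) (Fin 4) F) = Matrix.single j j a⁻¹ := by
      rw [Matrix.single_mul_single_same, mul_one]
    have z : ∀ (p q r s : Fin 4) (x y : F), q ≠ r → (Matrix.single p q x * Matrix.single r s y : Matrix (Fin 4) (Fin 4) F) = 0 :=
      fun p q r s x y h => Matrix.single_mul_single_of_ne _ _ _ _ h _
    have s : ∀ (p q s : Fin 4) (x y : F), (Matrix.single p q x * Matrix.single q s y : Matrix (Fin 4) (Fin 4) F) =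
        Matrix.single p s (x * y) := fun p q s x y => by rw [Matrix.single_mul_single_same]
    have n1 : (Matrix.single i j (-1) : Matrix (Fin 4) (Fin 4) F) = -Matrix.single i j 1 := by rw [Matrix.single_neg]
    have n2 : (Matrix.single j i (-1) : Matrix (Fin 4) (Fin 4) F) = -Matrix.single j i 1 := by rw [Matrix.single_neg]
    have hd : (Matrix.diagonal (fun k => if k = i then a else if k = j then a⁻¹ else 1) : Matrix (Fin 4) (Fin 4) F) =
        1 - Matrix.single i i 1 - Matrix.single j j 1 + Matrix.single i i a + Matrix.single j j a⁻¹ := by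
      ext k l
      simp only [Matrix.diagonal_apply, Matrix.add_apply, Matrix.sub_apply, Matrix.one_apply, Matrix.single_apply]
      by_cases hkl : k = l
      · subst hkl
        by_cases hki : k = i
        · subst hki
          simp [Ne.symm hij, hij]
        · by_cases hkj : k = j
          · subst hkj
            simp [hij, Ne.symm hki, hki]
          · simp [hki, hkj, Ne.symm hki, Ne.symm hkj]
      · have : ∀ m : Fin 4, ¬ (m = k ∧ m = l) := fun m h => hkl (h.1.symm.trans h.2)
        simp [hkl, this]
    rw [hd, n1, n2]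
    simp only [add_mul, sub_mul, mul_add, mul_sub, mul_neg, neg_mul, one_mul, mul_one, s, z _ _ _ _ _ _ hij,
      z _ _ _ _ _ _ hij.symm]
    abel
  have e1 : ∀ (k l : Fin 4) (hkl : k ≠ l) (x : F), ((Matrix.SpecialLinearGroup.transvection hkl x :
      Matrix.SpecialLinearGroup (Fin 4) F) : Matrix (Fin 4) (Fin 4) F) = 1 + Matrix.single k l x := fun k l hkl x => rfl
  show (Matrix.diagonal (fun k => if k = i then a else if k = j then a⁻¹ else 1) : Matrix (Fin 4) (Fin 4) F) = _
  rw [← h3, ← h1, ← h2]
  rfl

theorem SLT : SLT_stmt := by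
  intro F _
  rw [eq_top_iff]
  intro m _
  have ht : ∀ (i j : Fin 4) (hij : i ≠ j) (a : F), Matrix.SpecialLinearGroup.transvection hij a ∈
      Subgroup.closure {m : Matrix.SpecialLinearGroup (Fin 4) F | ∃ (a b : Fin 4) (t : F), a ≠ b ∧
        (m : Matrix (Fin 4) (Fin 4) F) = 1 + Matrix.single a b t} := by
    intro i j hij a
    exact Subgroup.subset_closure ⟨i, j, a, hij, rfl⟩
  refine Matrix.SpecialLinearGroup.diagonal_transvection_induction' _ m ?_ ht (fun A B hA hB => mul_mem hA hB)
  intro i j hij c hc
  rw [SLT_d hij c hc]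
  exact mul_mem (mul_mem (mul_mem (ht _ _ _ _) (ht _ _ _ _)) (ht _ _ _ _)) (mul_mem (mul_mem (ht _ _ _ _) (ht _ _ _ _)) (ht _ _ _ _))

end Pool.Agent.EXA
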