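import Pool.Agent.helper32.EXA.RHO
import Pool.Agent.helper32.EXA.IOT
import Pool.Agent.helper32.EXA.IOI
import Pool.Agent.helper32.EXA.RMB
import Pool.Agent.helper32.EXA.SLT
import Pool.Agent.helper32.EXA.LIF

/-!
# Project EXA (MP_561ff4_al): all rows
-/

set_option autoImplicit false

open Finset

namespace Pool.Agent.EXA

open Pool.Agent.EXC

theorem f_RHO : RHO_stmt := RHO
theorem f_IOT : IOT_stmt := IOT f_RHO
theorem f_IOI : IOI_stmt := IOI f_RHO
theorem f_RMB : RMB_stmt := RMB f_IOT f_RHO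
theorem f_SLT : SLT_stmt := SLT
theorem f_LIF : LIF_stmt := LIF f_RMB f_SLT f_RHO f_EXF

end Pool.Agent.EXA
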