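import Pool.Agent.helper32.EXA.Spec

set_option autoImplicit false

open Finset

namespace Pool.Agent.EXA

open Pool.Agent.EXC

theorem RHO_ip_sum_right {n : ℕ} (C : Matrix (Fin n) (Fin n) ℤ) [IsC C] {ι : Type} (s : Finset ι) (f : ι → Fin n → ℤ)
    (w : Fin n → ℤ) : ip C w (∑ i ∈ s, f i) = ∑ i ∈ s, ip C w (f i) := by
  rw [ip_comm, ip_sum_left]
  exact Finset.sum_congr rfl fun i _ => ip_comm C _ _

theorem RHO_bf_sum_left {n : ℕ} (C : Matrix (Fin n) (Fin n) ℤ) {ι : Type} (s : Finset ι) (f : ι → Fin n → ℤ)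
    (w : Fin n → ℤ) : bf C (∑ i ∈ s, f i) w = ∑ i ∈ s, bf C (f i) w := by
  classical
  induction s using Finset.induction_on with
  | empty => simp
  | insert a s ha ih => rw [Finset.sum_insert ha, Finset.sum_insert ha, bf_add_left, ih]

theorem RHO_bf_sum_right {n : ℕ} (C : Matrix (Fin n) (Fin n) ℤ) {ι : Type} (s : Finset ι) (f : ι → Fin n → ℤ)
    (w : Fin n → ℤ) : bf C w (∑ i ∈ s, f i) = ∑ i ∈ s, bf C w (f i) := by
  classical
  induction s using Finset.induction_on with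
  | empty => simp
  | insert a s ha ih => rw [Finset.sum_insert ha, Finset.sum_insert ha, bf_add_right, ih]

theorem RHO_bf_sr {n : ℕ} (C : Matrix (Fin n) (Fin n) ℤ) (p q : Fin n) :
    bf C (sr p) (sr q) = (if p = q then 1 else 0) + if p < q then C p q else 0 := by
  unfold bf sr
  congr 1
  · simp [Pi.single_apply, eq_comm]
  · rw [Finset.sum_eq_single p]
    · rw [Finset.sum_eq_single q]
      · simp
      · intro j _ hj
        simp [Pi.single_apply, hj]
      · simp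
    · intro i _ hi
      refine Finset.sum_eq_zero fun j _ => ?_
      simp [Pi.single_apply, hi]
    · simp

theorem RHO_f : ∀ a b : Fin 4, (∑ k : Fin 3, ∑ l : Fin 3, if (k : ℕ) < a then if (l : ℕ) < b then
    (if k = l then 2 else if (k : ℕ) + 1 = l ∨ (l : ℕ) + 1 = k then -1 else 0 : ℤ) else 0 else 0) =
    1 + (if a = b then 1 else 0) - (if a = 0 then 1 else 0) - (if b = 0 then 1 else 0) := by decide

theorem RHO_g : ∀ a b : Fin 4, (∑ k : Fin 3, ∑ l : Fin 3, if (k : ℕ) < a then if (l : ℕ) < b then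
    ((if k = l then 1 else 0) + if k < l then (if k = l then 2 else if (k : ℕ) + 1 = l ∨ (l : ℕ) + 1 = k then -1 else 0 : ℤ) else 0 : ℤ)
      else 0 else 0) =
    if 0 < b ∧ b ≤ a then 1 else 0 := by decide

theorem RHO_sg : ∀ a b c : Fin 4, a ≠ b → b ≠ c → a ≠ c →
    (if Even ((if 0 < c ∧ c ≤ b then 1 else 0) - (if 0 < b ∧ b ≤ b then 1 else 0) - ((if 0 < c ∧ c ≤ a then 1 else 0) -
      (if 0 < b ∧ b ≤ a then 1 else 0)) : ℤ) then (1 : ℤ) else -1) * et a b * et b c = et a c := by decide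

theorem RHO_ip {n : ℕ} (C : Matrix (Fin n) (Fin n) ℤ) [IsC C] (j0 : Fin n) (θ : Fin n → ℤ) (δ : Fin 3 → Fin n) (h : IsA C j0 θ δ)
    (a b : Fin 4) : ip C (pr δ a) (pr δ b) = 1 + (if a = b then 1 else 0) - (if a = 0 then 1 else 0) - (if b = 0 then 1 else 0) := by
  rw [← RHO_f a b]
  unfold pr
  rw [ip_sum_left]
  refine Finset.sum_congr rfl fun k _ => ?_
  rw [RHO_ip_sum_right]
  refine Finset.sum_congr rfl fun l _ => ?_
  by_cases hk : (k : ℕ) < a
  · by_cases hl : (l : ℕ) < b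
    · rw [if_pos hk, if_pos hl, if_pos hk, if_pos hl, ip_sr_sr, h.ch]
    · rw [if_neg hl, if_neg hl, ip_zero_right, if_pos hk]
  · rw [if_neg hk, if_neg hk, ip_zero_left]

theorem RHO_bf {n : ℕ} (C : Matrix (Fin n) (Fin n) ℤ) [IsC C] (j0 : Fin n) (θ : Fin n → ℤ) (δ : Fin 3 → Fin n) (h : IsA C j0 θ δ)
    (a b : Fin 4) : bf C (pr δ a) (pr δ b) = if 0 < b ∧ b ≤ a then 1 else 0 := by
  rw [← RHO_g a b]
  unfold pr
  rw [RHO_bf_sum_left]
  refine Finset.sum_congr rfl fun k _ => ?_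
  rw [RHO_bf_sum_right]
  refine Finset.sum_congr rfl fun l _ => ?_
  by_cases hk : (k : ℕ) < a
  · by_cases hl : (l : ℕ) < b
    · rw [if_pos hk, if_pos hl, if_pos hk, if_pos hl, RHO_bf_sr, h.ch]
      simp only [h.inc.injective.eq_iff, h.inc.lt_iff_lt]
    · rw [if_neg hl, if_neg hl, bf_zero_right, if_pos hk]
  · rw [if_neg hk, if_neg hk, bf_zero_left]

theorem RHO : RHO_stmt := by
  intro n C _ j0 θ δ h
  have h1 : ∀ a b c d : Fin 4, ip C (ro δ a b) (ro δ c d) = (if a = c then 1 else 0) + (if b = d then 1 else 0) -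
      (if a = d then 1 else 0) - (if b = c then 1 else 0) := by
    intro a b c d
    unfold ro
    rw [ip_sub_left, ip_sub_right, ip_sub_right, RHO_ip C j0 θ δ h, RHO_ip C j0 θ δ h, RHO_ip C j0 θ δ h, RHO_ip C j0 θ δ h]
    ring
  refine ⟨h1, ?_, ?_, ?_, ?_⟩
  · intro a b c hab hbc hac
    rw [← RHO_sg a b c hab hbc hac]
    have h2 : bf C (ro δ a b) (ro δ b c) = (if 0 < c ∧ c ≤ b then 1 else 0) - (if 0 < b ∧ b ≤ b then 1 else 0) -
        ((if 0 < c ∧ c ≤ a then 1 else 0) - (if 0 < b ∧ b ≤ a then 1 else 0)) := by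
      unfold ro
      rw [sub_eq_add_neg (pr δ b) (pr δ a), bf_add_left, bf_neg_left, sub_eq_add_neg (pr δ c) (pr δ b), bf_add_right, bf_neg_right,
        bf_add_right, bf_neg_right, RHO_bf C j0 θ δ h, RHO_bf C j0 θ δ h, RHO_bf C j0 θ δ h, RHO_bf C j0 θ δ h]
      ring
    unfold sg
    rw [h2]
  · intro a b c
    unfold ro
    abel
  · intro a b
    unfold ro
    abel
  · intro a b c d hab hcd he
    have h2 := h1 a b a b
    have h3 := h1 a b c d
    rw [← he, h2] at h3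
    rw [if_pos rfl, if_pos rfl, if_neg hab, if_neg (Ne.symm hab)] at h3
    by_cases hac : a = c
    · by_cases hbd : b = d
      · exact ⟨hac, hbd⟩
      · rw [if_pos hac, if_neg hbd] at h3
        split_ifs at h3 <;> omega
    · rw [if_neg hac] at h3
      split_ifs at h3 <;> omega

end Pool.Agent.EXA
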