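import Pool.Agent.helper17.EXC.Facts

/-!
# Project EXA (MP_561ff4_al): the subsystem of type `A₃` (copy of the rows RHO, IOT, IOI, RMB, SLT, LIF of project EXC for the type `A₅`)
-/

set_option autoImplicit false

open Finset

namespace Pool.Agent.EXA

open Pool.Agent.EXC

/-- `δ 0, δ 1, δ 2` is a chain of nodes of type `A₃` (`j0`, `θ` are dummies; `hb`: every root has a root with product `-1`) -/
structure IsA {n : ℕ} (C : Matrix (Fin n) (Fin n) ℤ) (j0 : Fin n) (θ : Fin n → ℤ) (δ : Fin 3 → Fin n) : Prop where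
  hb : ∀ α, ip C α α = 2 → ∃ β, ip C β β = 2 ∧ ip C α β = -1
  inc : StrictMono δ
  ch : ∀ a b : Fin 3, C (δ a) (δ b) = if a = b then 2 else if (a : ℕ) + 1 = b ∨ (b : ℕ) + 1 = a then -1 else 0
  dm : j0 = j0 ∧ θ = θ

section
variable {n : ℕ} (C : Matrix (Fin n) (Fin n) ℤ) [IsC C] {F : Type} [Field F]

/-- `α_{δ 0} + ... + α_{δ (a-1)}` -/
def pr (δ : Fin 3 → Fin n) (a : Fin 4) : Fin n → ℤ := ∑ k : Fin 3, if (k : ℕ) < a then sr (δ k) else 0

/-- the root `ε_a - ε_b` of the subsystem of type `A₃` -/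
def ro (δ : Fin 3 → Fin n) (a b : Fin 4) : Fin n → ℤ := pr δ b - pr δ a

/-- the sign `η_ab` -/
def et (a b : Fin 4) : ℤ := if a < b then -1 else 1

/-- the embedding of the matrices of trace zero -/
noncomputable def io (δ : Fin 3 → Fin n) (M : Matrix (Fin 4) (Fin 4) F) : Lm C F :=
  ∑ k : Fin 3, (∑ a : Fin 4, if (a : ℕ) ≤ k then M a a else 0) • ht C (sr (δ k)) +
    ∑ a : Fin 4, ∑ b : Fin 4, if a = b then 0 else ((et a b : F) * M a b) • E C (ro δ a b)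

/-- `h` acts on the matrices of trace zero as the conjugation by `m` -/
def Rm (δ : Fin 3 → Fin n) (h : Lm C F ≃ₗ[F] Lm C F) (m : Matrix.SpecialLinearGroup (Fin 4) F) : Prop :=
  ∀ M : Matrix (Fin 4) (Fin 4) F, M.trace = 0 →
    h (io C δ M) = io C δ ((m : Matrix (Fin 4) (Fin 4) F) * M * ((m⁻¹ : Matrix.SpecialLinearGroup (Fin 4) F) : Matrix (Fin 4) (Fin 4) F))

omit [IsC C] in
theorem io_add (δ : Fin 3 → Fin n) (M M' : Matrix (Fin 4) (Fin 4) F) : io C δ (M + M') = io C δ M + io C δ M' := by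
  have h1 : ∀ k : Fin 3, (∑ a : Fin 4, if (a : ℕ) ≤ k then (M + M') a a else 0) =
      (∑ a : Fin 4, if (a : ℕ) ≤ k then M a a else 0) + ∑ a : Fin 4, if (a : ℕ) ≤ k then M' a a else 0 := by
    intro k
    rw [← Finset.sum_add_distrib]
    exact Finset.sum_congr rfl fun a _ => by split_ifs <;> simp
  have h2 : ∀ a b : Fin 4, (if a = b then 0 else ((et a b : F) * (M + M') a b) • E C (ro δ a b) : Lm C F) =
      (if a = b then 0 else ((et a b : F) * M a b) • E C (ro δ a b)) + if a = b then 0 else ((et a b : F) * M' a b) • E C (ro δ a b) := by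
    intro a b
    split_ifs
    · simp
    · rw [Matrix.add_apply, mul_add, add_smul]
  simp only [io, h1, h2, add_smul, Finset.sum_add_distrib]
  abel

omit [IsC C] in
theorem io_smul (δ : Fin 3 → Fin n) (c : F) (M : Matrix (Fin 4) (Fin 4) F) : io C δ (c • M) = c • io C δ M := by
  have h1 : ∀ k : Fin 3, (∑ a : Fin 4, if (a : ℕ) ≤ k then (c • M) a a else 0) = c * ∑ a : Fin 4, if (a : ℕ) ≤ k then M a a else 0 := by
    intro k
    rw [Finset.mul_sum]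
    exact Finset.sum_congr rfl fun a _ => by split_ifs <;> simp
  have h2 : ∀ a b : Fin 4, (if a = b then 0 else ((et a b : F) * (c • M) a b) • E C (ro δ a b) : Lm C F) =
      c • (if a = b then 0 else ((et a b : F) * M a b) • E C (ro δ a b)) := by
    intro a b
    split_ifs
    · simp
    · rw [Matrix.smul_apply, smul_smul, smul_eq_mul]; congr 1; ring
  simp only [io, h1, h2]
  simp only [smul_add, Finset.smul_sum, smul_smul]

end

/-- **RHO** -/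
def RHO_stmt : Prop := ∀ (n : ℕ) (C : Matrix (Fin n) (Fin n) ℤ) [IsC C] (j0 : Fin n) (θ : Fin n → ℤ) (δ : Fin 3 → Fin n), IsA C j0 θ δ →
  (∀ a b c d : Fin 4, ip C (ro δ a b) (ro δ c d) = (if a = c then 1 else 0) + (if b = d then 1 else 0) - (if a = d then 1 else 0) -
    (if b = c then 1 else 0)) ∧
  (∀ a b c : Fin 4, a ≠ b → b ≠ c → a ≠ c → sg C (ro δ a b) (ro δ b c) * et a b * et b c = et a c) ∧
  (∀ a b c : Fin 4, ro δ a b + ro δ b c = ro δ a c) ∧ (∀ a b : Fin 4, ro δ b a = -ro δ a b) ∧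
  ∀ a b c d : Fin 4, a ≠ b → c ≠ d → ro δ a b = ro δ c d → a = c ∧ b = d

/-- **IOT** -/
def IOT_stmt : Prop := ∀ (n : ℕ) (C : Matrix (Fin n) (Fin n) ℤ) [IsC C] (F : Type) [Field F] (j0 : Fin n) (θ : Fin n → ℤ) (δ : Fin 3 → Fin n),
  IsA C j0 θ δ → ∀ (a b : Fin 4), a ≠ b → ∀ M : Matrix (Fin 4) (Fin 4) F, M.trace = 0 →
  br C (E C (ro δ a b)) (io C δ M) = (et a b : F) • io C δ (Matrix.single a b 1 * M - M * Matrix.single a b 1) ∧
  fm C (E C (ro δ a b)) (io C δ M) = -((et a b : F) * M b a)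

/-- **IOI** -/
def IOI_stmt : Prop := ∀ (n : ℕ) (C : Matrix (Fin n) (Fin n) ℤ) [IsC C] (F : Type) [Field F] (j0 : Fin n) (θ : Fin n → ℤ) (δ : Fin 3 → Fin n),
  IsA C j0 θ δ → (∀ M : Matrix (Fin 4) (Fin 4) F, M.trace = 0 → io C δ M = 0 → M = 0) ∧
  ∀ m : Matrix.SpecialLinearGroup (Fin 4) F, Rm C δ 1 m → ∃ c : F, (m : Matrix (Fin 4) (Fin 4) F) = c • (1 : Matrix (Fin 4) (Fin 4) F)

/-- **RMB** -/
def RMB_stmt : Prop := ∀ (n : ℕ) (C : Matrix (Fin n) (Fin n) ℤ) [IsC C] (F : Type) [Field F] (j0 : Fin n) (θ : Fin n → ℤ) (δ : Fin 3 → Fin n),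
  IsA C j0 θ δ → (∀ (a b : Fin 4) (t : F) (g : Lm C F ≃ₗ[F] Lm C F) (m : Matrix.SpecialLinearGroup (Fin 4) F), a ≠ b →
    IsX C (E C (ro δ a b)) (et a b * t) g → (m : Matrix (Fin 4) (Fin 4) F) = 1 + Matrix.single a b t → Rm C δ g m) ∧
  (∀ (g h : Lm C F ≃ₗ[F] Lm C F) (m m' : Matrix.SpecialLinearGroup (Fin 4) F), Rm C δ g m → Rm C δ h m' → Rm C δ (g * h) (m * m')) ∧
  (∀ (g : Lm C F ≃ₗ[F] Lm C F) (m : Matrix.SpecialLinearGroup (Fin 4) F), Rm C δ g m → Rm C δ g⁻¹ m⁻¹) ∧ Rm C δ (1 : Lm C F ≃ₗ[F] Lm C F) 1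

/-- **SLT** -/
def SLT_stmt : Prop := ∀ (F : Type) [Field F], Subgroup.closure {m : Matrix.SpecialLinearGroup (Fin 4) F | ∃ (a b : Fin 4) (t : F), a ≠ b ∧
  (m : Matrix (Fin 4) (Fin 4) F) = 1 + Matrix.single a b t} = ⊤

/-- **LIF** -/
def LIF_stmt : Prop := ∀ (n : ℕ) (C : Matrix (Fin n) (Fin n) ℤ) [IsC C] (F : Type) [Field F] (j0 : Fin n) (θ : Fin n → ℤ) (δ : Fin 3 → Fin n),
  IsA C j0 θ δ → ∀ m : Matrix.SpecialLinearGroup (Fin 4) F, ∃ h ∈ GE C F, Rm C δ h m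

end Pool.Agent.EXA
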